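import Mathlib
import Pool.Agent.Lib.MP_99e3ed_co.H84.TA

/-!
Ratio form of Kahn's conjecture: the two kinds at multiples of `d`, the link with the counts of the
extremal graph, and positivity of kind `A`.
-/

set_option autoImplicit false

open Finset Polynomial
open Pool.Agent.Lib.MP_99e3ed_co
open Pool.Agent.Lib.MP_99e3ed_co.H90 (ph Phi PP yy)
open Pool.Agent.Lib.MP_99e3ed_co.Ratio (TT AA)

namespace Pool.Agent.MP_99e3ed_co.H64

lemma cc_zero_succ (i : ℕ) : Ratio.cc 0 (i + 1) = 0 := by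
  induction i with
  | zero => simp [Ratio.cc]
  | succ i ih =>
    have : Ratio.cc 0 (i + 1 + 1) = Ratio.cc 0 (i + 1) *
      (-(0 - ((i + 1 : ℕ) : ℝ)) / (2 * (((i + 1 : ℕ) : ℝ) + 1))) := rfl
    rw [this, ih, zero_mul]

lemma TT_zero_right (d k n : ℕ) : TT d k n 0 = (n.choose k : ℝ) := by
  unfold Ratio.TT
  rw [sum_range_succ', zero_div]
  rw [sum_eq_zero (fun i _ => by rw [cc_zero_succ, zero_mul])]
  simp [Ratio.cc]

lemma AA_zero_right (d k n : ℕ) : AA d k (n : ℝ) 0 = (n.choose k : ℝ) := by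
  induction k generalizing n with
  | zero => simp [AA]
  | succ k ih =>
    have h : AA d (k + 1) (n : ℝ) 0 = (((n : ℝ) - 0) * AA d k ((n : ℝ) - 1) 0 +
      2 * 0 * AA d k ((n : ℝ) - 1) (0 - d)) / (k + 1) := rfl
    rw [h]
    cases n with
    | zero => simp
    | succ n =>
      have e : (((n + 1 : ℕ) : ℝ) - 1) = n := by push_cast; ring
      rw [e, ih]
      have h2 := Nat.add_one_mul_choose_eq n k
      have h3 : ((n : ℝ) + 1) * (n.choose k : ℝ) = ((n + 1).choose (k + 1) : ℝ) * ((k : ℝ) + 1) := by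
        exact_mod_cast h2
      have hk : (k : ℝ) + 1 ≠ 0 := by positivity
      rw [div_eq_iff hk]
      push_cast
      linarith

theorem aaMul : Ratio.AAMul := by
  intro d k n q hd hq
  induction q generalizing n with
  | zero =>
    simp only [mul_zero, Nat.cast_zero, pow_zero, one_mul]
    rw [AA_zero_right, TT_zero_right]
  | succ q ih =>
    have h1 : d * q ≤ n := le_trans (Nat.mul_le_mul_left _ (by omega)) hq
    have h2 : d * q ≤ n - d := by
      have : d * (q + 1) = d * q + d := by ring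
      omega
    have h3 : d ≤ n := by
      have : d * (q + 1) = d * q + d := by ring
      omega
    have e : ((d * (q + 1) : ℕ) : ℝ) - d = ((d * q : ℕ) : ℝ) := by push_cast; ring
    have e2 : ((n : ℝ) - d) = ((n - d : ℕ) : ℝ) := by
      rw [Nat.cast_sub h3]
    rw [H84.aaShift d k n, H84.ttShift d k n _ hd h3, e, e2, ih n h1, ih (n - d) h2]
    ring

lemma Phi_succ (d L q : ℕ) (h : d * (q + 1) ≤ L) :
    Phi d L (q + 1) = 2 * Phi d L q - Phi d (L - d) q := by
  obtain ⟨c, rfl⟩ := Nat.exists_eq_add_of_le h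
  have e1 : Phi d (d * (q + 1) + c) (q + 1) = yy ^ c * PP d ^ (q + 1) := H90.Phi_eq d c (q + 1)
  have e0 : Phi d (d * (q + 1) + c) q = yy ^ (c + d) * PP d ^ q := by
    rw [← H90.Phi_eq]; congr 1; ring
  have e2 : d * (q + 1) + c - d = d * q + c := by
    have : d * (q + 1) = d * q + d := by ring
    omega
  have e3 : Phi d (d * (q + 1) + c - d) q = yy ^ c * PP d ^ q := by
    rw [e2, H90.Phi_eq]
  rw [e1, e0, e3]
  unfold PP
  ring

lemma ph_succ_right (d j L q : ℕ) (h : d * (q + 1) ≤ L) :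
    ph d j L (q + 1) = 2 * ph d j L q - ph d j (L - d) q := by
  unfold ph
  rw [Phi_succ d L q h, coeff_sub, show (2 : ℤ[X]) = C 2 from rfl, coeff_C_mul]
  push_cast
  ring

theorem ttph : Ratio.TTph := by
  intro d k n q hd hq
  induction q generalizing n with
  | zero =>
    simp only [mul_zero, Nat.cast_zero, pow_zero, one_mul]
    rw [H90.ph_zero_right, TT_zero_right]
    norm_cast
  | succ q ih =>
    have h1 : d * q ≤ n := le_trans (Nat.mul_le_mul_left _ (by omega)) hq
    have h2 : d * q ≤ n - d := by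
      have : d * (q + 1) = d * q + d := by ring
      omega
    have h3 : d ≤ n := by
      have : d * (q + 1) = d * q + d := by ring
      omega
    have e : ((d * (q + 1) : ℕ) : ℝ) - d = ((d * q : ℕ) : ℝ) := by push_cast; ring
    rw [ph_succ_right d k n q hq, H84.ttShift d k n _ hd h3, e]
    push_cast
    rw [ih n h1, ih (n - d) h2]
    push_cast
    ring

/-! ### positivity of kind `A` -/

lemma AA_one (d : ℕ) (n s : ℝ) : AA d 1 n s = n + s := by
  have : AA d 1 n s = ((n - s) * AA d 0 (n - 1) s + 2 * s * AA d 0 (n - 1) (s - d)) /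
    (((0 : ℕ) : ℝ) + 1) := rfl
  rw [this]
  simp only [AA]
  push_cast
  ring

lemma AA_two (d : ℕ) (n s : ℝ) :
    AA d 2 n s = ((n + s) * (n + s - 1) - 2 * s * d) / 2 := by
  have : AA d 2 n s = ((n - s) * AA d 1 (n - 1) s + 2 * s * AA d 1 (n - 1) (s - d)) /
    (((1 : ℕ) : ℝ) + 1) := rfl
  rw [this, AA_one, AA_one]
  push_cast
  ring

/-- the recursion in the form `(k+1) A_{k+1}(n,s) = (n-s) A_k(n-1,s) + 2 s A_k(n-1,s-d)` -/
lemma AA_rec (d k : ℕ) (n s : ℝ) : ((k : ℝ) + 1) * AA d (k + 1) n s =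
    (n - s) * AA d k (n - 1) s + 2 * s * AA d k (n - 1) (s - d) := by
  have : AA d (k + 1) n s = ((n - s) * AA d k (n - 1) s + 2 * s * AA d k (n - 1) (s - d)) /
    ((k : ℝ) + 1) := rfl
  rw [this]
  field_simp

/-- `A_k(n,s) - A_k(n-m,s) = ∑_{l<m} A_{k-1}(n-1-l,s)` -/
lemma AA_sub_le (d k m : ℕ) (n s : ℝ) (h : ∀ l < m, 0 ≤ AA d k (n - 1 - l) s) :
    AA d (k + 1) (n - m) s ≤ AA d (k + 1) n s := by
  induction m with
  | zero => simp
  | succ m ih =>
    have ih' := ih (fun l hl => h l (by omega))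
    have h1 := H84.aaPascal d k (n - (m + 1 : ℕ)) s
    have e1 : n - ((m + 1 : ℕ) : ℝ) + 1 = n - m := by push_cast; ring
    have e2 : n - ((m + 1 : ℕ) : ℝ) = n - 1 - m := by push_cast; ring
    have h2 := h m (by omega)
    rw [e1] at h1
    rw [← e2] at h2
    linarith

/-- the domain of kind `A` -/
lemma AA_pos_all (d k : ℕ) (hd : 3 ≤ d) : ∀ (n s : ℝ), (k : ℝ) * d ≤ s → s ≤ n →
    ((k : ℝ) + 1) * d + 1 ≤ n →
    0 < AA d (k + 2) n s ∧ 0 < AA d (k + 1) (n - 1) s ∧ 0 < AA d (k + 2) (n - 1) s := by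
  have hd' : (3 : ℝ) ≤ d := by exact_mod_cast hd
  induction k with
  | zero =>
    intro n s hs hsn hn
    simp only [Nat.cast_zero, zero_mul, zero_add, one_mul] at hs hn ⊢
    rw [AA_two, AA_two, AA_one]
    refine ⟨?_, by linarith, ?_⟩
    · have : 0 < (n + s) * (n + s - 1) - 2 * s * d := by nlinarith [sq_nonneg (s - 1)]
      linarith
    · have : 0 < (n - 1 + s) * (n - 1 + s - 1) - 2 * s * d := by
        nlinarith [sq_nonneg (s - 1), mul_nonneg hs (sub_nonneg.2 hn)]
      linarith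
  | succ k ih =>
    intro n s hs hsn hn
    push_cast at hs hn
    have hk : (0 : ℝ) ≤ k := Nat.cast_nonneg k
    -- the points `(n-1-l, s-d)` are in the domain of level `k`
    have dom : ∀ l : ℕ, l < d → ((k : ℝ) * d ≤ s - d ∧ s - d ≤ n - 1 - l ∧
        ((k : ℝ) + 1) * d + 1 ≤ n - 1 - l) := by
      intro l hl
      have hl' : (l : ℝ) + 1 ≤ d := by exact_mod_cast hl
      refine ⟨by nlinarith, by linarith, by nlinarith⟩
    have p0 := ih (n - 1) (s - d) (dom 0 (by omega)).1
      (by have := (dom 0 (by omega)).2.1; simpa using this)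
      (by have := (dom 0 (by omega)).2.2; simpa using this)
    have hle : AA d (k + 1 + 1) (n - 1 - d) (s - d) ≤ AA d (k + 1 + 1) (n - 1) (s - d) := by
      apply AA_sub_le
      intro l hl
      obtain ⟨a, b, c⟩ := dom l hl
      have := (ih (n - 1 - l) (s - d) a b c).2.1
      have e : n - 1 - 1 - (l : ℝ) = n - 1 - l - 1 := by ring
      rw [e]
      exact this.le
    have hlow : 0 < AA d (k + 2) (n - 1 - d) (s - d) := by
      obtain ⟨a, b, c⟩ := dom (d - 1) (by omega)
      have e : ((d - 1 : ℕ) : ℝ) = d - 1 := by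
        rw [Nat.cast_sub (by omega)]; norm_num
      have := (ih (n - 1 - ((d - 1 : ℕ) : ℝ)) (s - d) a b c).2.2
      rw [e] at this
      have e2 : n - 1 - ((d : ℝ) - 1) - 1 = n - 1 - d := by ring
      rw [e2] at this
      exact this
    have hsh := H84.aaShift d (k + 2) (n - 1) s
    have h1 : 0 < AA d (k + 2) (n - 1) s := by
      rw [hsh]
      have := p0.1
      simp only [Nat.add_assoc] at hle
      norm_num at hle
      linarith
    have hs0 : 0 < s := by nlinarith
    have hrec := AA_rec d (k + 2) n s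
    have h2 : 0 < AA d (k + 2 + 1) n s := by
      have h3 : 0 < ((k + 2 : ℕ) : ℝ) + 1 := by positivity
      have h4 : 0 < (((k + 2 : ℕ) : ℝ) + 1) * AA d (k + 2 + 1) n s := by
        rw [hrec]
        have := mul_nonneg (sub_nonneg.2 hsn) h1.le
        have := mul_pos hs0 p0.1
        nlinarith
      exact (mul_pos_iff_of_pos_left h3).1 h4
    refine ⟨h2, h1, ?_⟩
    have hp := H84.aaPascal d (k + 2) (n - 1) s
    have e : n - 1 + 1 = n := by ring
    rw [e] at hp
    -- `(k+3) A_{k+3}(n,s) ≥ n A_{k+2}(n-1,s)`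
    have h5 : n * AA d (k + 2) (n - 1) s ≤ (((k + 2 : ℕ) : ℝ) + 1) * AA d (k + 2 + 1) n s := by
      rw [hrec]
      have : AA d (k + 2) (n - 1) s ≤ 2 * AA d (k + 2) (n - 1) (s - d) := by
        rw [hsh]; linarith
      nlinarith
    have h6 : ((k + 2 : ℕ) : ℝ) + 1 < n := by push_cast; nlinarith
    have h7 : AA d (k + 2) (n - 1) s < AA d (k + 2 + 1) n s := by
      by_contra hcon
      push Not at hcon
      have h8 : (((k + 2 : ℕ) : ℝ) + 1) * AA d (k + 2 + 1) n s ≤
          (((k + 2 : ℕ) : ℝ) + 1) * AA d (k + 2) (n - 1) s :=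
        mul_le_mul_of_nonneg_left hcon (by positivity)
      have h9 : (((k + 2 : ℕ) : ℝ) + 1) * AA d (k + 2) (n - 1) s < n * AA d (k + 2) (n - 1) s :=
        mul_lt_mul_of_pos_right h6 h1
      linarith
    show 0 < AA d (k + 2 + 1) (n - 1) s
    linarith

theorem aaPos : Ratio.AAPos := by
  intro d k n s hd hk hs hsn hn
  obtain ⟨j, rfl⟩ : ∃ j, k = j + 2 := ⟨k - 2, by omega⟩
  push_cast at hs hn
  exact (AA_pos_all d j hd n s (by linarith) hsn (by linarith)).1

end Pool.Agent.MP_99e3ed_co.H64
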