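import Mathlib
import Pool.Agent.Lib.MP_99e3ed_co.H64.RA

/-!
Ratio form of Kahn's conjecture: the switch from kind `A` to kind `T`.
-/

set_option autoImplicit false

open Finset
open Pool.Agent.Lib.MP_99e3ed_co
open Pool.Agent.Lib.MP_99e3ed_co.Ratio (TT AA)

namespace Pool.Agent.MP_99e3ed_co.H64

lemma TT_nonneg' {d k n : ℕ} {s : ℝ} (hd : 1 ≤ d) (hs : s ≤ k * d) : 0 ≤ TT d k n s := by
  rw [H84.ratio_TT hd]
  exact H84.TT_nonneg hd hs

lemma TT_pos' {d k n : ℕ} {s : ℝ} (hd : 1 ≤ d) (hs : s ≤ k * d) (hkn : k ≤ n) :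
    0 < TT d k n s := by
  rw [H84.ratio_TT hd]
  exact H84.TT_pos hd hs hkn

/-- `(k+1) T_{k+1}(m,s)` in terms of level `k` at the same `m` -/
lemma TT_same {d : ℕ} (hd : 1 ≤ d) (k m : ℕ) (s : ℝ) :
    ((k : ℝ) + 1) * TT d (k + 1) m s =
      ((m : ℝ) - s - k) * TT d k m s + s * TT d k m (s - d) := by
  have h1 := H84.ttRec d k m s hd
  have h2 := H84.ttPascal d k m s hd
  rw [h2] at h1
  linarith

lemma AA_same (d k : ℕ) (m s : ℝ) :
    ((k : ℝ) + 1) * AA d (k + 1) m s =
      (m - s - k) * AA d k m s + 2 * s * AA d k m (s - d) := by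
  have h1 := AA_rec d k (m + 1) s
  have h2 := H84.aaPascal d k m s
  have e : m + 1 - 1 = m := by ring
  rw [e, h2] at h1
  linarith

/-- comparison of two growing sequences -/
lemma chain_aux {a a0 t t0 : ℕ → ℝ} {m0 : ℕ} (ha : ∀ m, a (m + 1) = a m + a0 m)
    (ht : ∀ m, t (m + 1) = t m + t0 m) (ht0 : ∀ m, 0 ≤ t m) (ht00 : ∀ m, 0 ≤ t0 m)
    (hb : t m0 = 0 → a m0 ≤ 0) :
    ∀ r : ℕ, (∀ i < r, a (m0 + i) * t0 (m0 + i) ≤ t (m0 + i) * a0 (m0 + i)) →
      a m0 * t (m0 + r) ≤ t m0 * a (m0 + r) := by
  intro r
  rcases (ht0 m0).eq_or_lt with h0 | h0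
  · intro _
    rw [← h0, zero_mul]
    exact mul_nonpos_of_nonpos_of_nonneg (hb h0.symm) (ht0 _)
  induction r with
  | zero => intro _; simp [mul_comm]
  | succ r ih =>
    intro h
    have ih' := ih (fun i hi => h i (by omega))
    have h1 := h r (by omega)
    have hpos : 0 < t (m0 + r) := by
      clear ih ih' h1 h
      induction r with
      | zero => simpa using h0
      | succ r ihr =>
        have : m0 + (r + 1) = (m0 + r) + 1 := by ring
        rw [this, ht]
        have := ht00 (m0 + r)
        linarith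
    have e : m0 + (r + 1) = (m0 + r) + 1 := by ring
    rw [e, ha, ht]
    have h2 : t (m0 + r) * (a m0 * (t (m0 + r) + t0 (m0 + r))) ≤
        t (m0 + r) * (t m0 * (a (m0 + r) + a0 (m0 + r))) := by
      have h3 := mul_le_mul_of_nonneg_right ih' (add_nonneg hpos.le (ht00 (m0 + r)))
      have h4 := mul_le_mul_of_nonneg_left h1 h0.le
      nlinarith
    exact le_of_mul_le_mul_left h2 hpos

theorem switch_all (d : ℕ) (hd : 3 ≤ d) (k : ℕ) : ∀ (m : ℕ) (s : ℝ), ((k : ℝ) - 1) * d ≤ s →
    s < k * d → s ≤ m → AA d (k + 1) m s * TT d k m s ≤ TT d (k + 1) m s * AA d k m s := by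
  have hd1 : 1 ≤ d := by omega
  have hd' : (3 : ℝ) ≤ d := by exact_mod_cast hd
  induction k with
  | zero =>
    intro m s hs1 hs2 _
    simp only [Nat.cast_zero, zero_mul, zero_sub, neg_mul, one_mul] at hs1 hs2
    have h1 := H84.ttNeg d 1 (m + 1) s hd1 le_rfl (by omega) hs1 hs2.le
    have h2 := H84.ttPascal d 0 m s hd1
    simp only [Nat.add_sub_cancel, Nat.sub_self] at h1
    simp only [zero_add] at h2 ⊢
    rw [h2] at h1
    push_cast at h1
    rw [AA_one]
    simp only [AA]
    linarith
  | succ k ih =>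
    intro m s hs1 hs2 hsm
    push_cast at hs1 hs2
    have hk : (0 : ℝ) ≤ k := Nat.cast_nonneg k
    have hs0 : 0 ≤ s := by nlinarith
    have hA := AA_same d (k + 1) m s
    have hT := TT_same hd1 (k + 1) m s
    by_cases hmd : d ≤ m
    · -- main case
      have hAs := H84.aaShift d (k + 1) m s
      have hTs := H84.ttShift d (k + 1) m s hd1 hmd
      have key : AA d (k + 1) ((m - d : ℕ) : ℝ) (s - d) * TT d (k + 1) (m - d + d) (s - d) ≤
          TT d (k + 1) (m - d) (s - d) * AA d (k + 1) ((m - d + d : ℕ) : ℝ) (s - d) := by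
        apply chain_aux (a := fun i : ℕ => AA d (k + 1) (i : ℝ) (s - d))
          (a0 := fun i : ℕ => AA d k (i : ℝ) (s - d))
          (t := fun i : ℕ => TT d (k + 1) i (s - d)) (t0 := fun i : ℕ => TT d k i (s - d))
        · intro i
          have := H84.aaPascal d k (i : ℝ) (s - d)
          push_cast
          exact this
        · intro i
          exact H84.ttPascal d k i (s - d) hd1
        · intro i
          apply TT_nonneg' hd1
          push_cast
          nlinarith
        · intro i
          apply TT_nonneg' hd1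
          linarith
        · intro h0
          -- boundary
          have hlt : m - d < k + 1 := by
            by_contra hcon
            have hp : 0 < TT d (k + 1) (m - d) (s - d) := by
              apply TT_pos' hd1
              · push_cast; nlinarith
              · omega
            linarith
          have hm1 : ((m - d : ℕ) : ℝ) = (m : ℝ) - d := by rw [Nat.cast_sub hmd]
          have hm2 : (m : ℝ) - d ≤ k := by
            rw [← hm1]; exact_mod_cast Nat.lt_succ_iff.1 hlt
          have hk1 : k ≤ 1 := by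
            by_contra hcon
            have : (2 : ℝ) ≤ k := by exact_mod_cast (by omega : 2 ≤ k)
            nlinarith
          show AA d (k + 1) ((m - d : ℕ) : ℝ) (s - d) ≤ 0
          interval_cases k
          · simp only [zero_add]
            rw [AA_one]
            push_cast at hm1 hm2 hs2 hs1
            rw [hm1]
            linarith
          · rw [show (1 + 1 : ℕ) = 2 from rfl, AA_two, hm1]
            push_cast at hm1 hm2 hs2 hs1
            have h01 : (m - d : ℕ) = 0 ∨ (m - d : ℕ) = 1 := by omega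
            rcases h01 with h01 | h01
            · rw [h01] at hm1
              push_cast at hm1
              have : s - d = 0 := by linarith
              rw [← hm1, this]
              norm_num
            · rw [h01] at hm1
              push_cast at hm1
              rw [← hm1]
              have h3 : 0 ≤ s - d := by linarith
              have h4 : s - d ≤ 1 := by linarith
              nlinarith
        · intro i hi
          have h1 : (s - d) ≤ ((m - d + i : ℕ) : ℝ) := by
            push_cast
            rw [Nat.cast_sub hmd]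
            have : (0 : ℝ) ≤ i := Nat.cast_nonneg i
            linarith
          exact ih (m - d + i) (s - d) (by linarith) (by linarith) h1
      rw [Nat.sub_add_cancel hmd, Nat.cast_sub hmd] at key
      -- conclusion
      have hk2 : 0 < ((k + 1 : ℕ) : ℝ) + 1 := by positivity
      have h3 : (((k + 1 : ℕ) : ℝ) + 1) * (AA d (k + 1 + 1) m s * TT d (k + 1) m s) ≤
          (((k + 1 : ℕ) : ℝ) + 1) * (TT d (k + 1 + 1) m s * AA d (k + 1) m s) := by
        have e1 : (((k + 1 : ℕ) : ℝ) + 1) * (AA d (k + 1 + 1) m s * TT d (k + 1) m s) =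
          ((((k + 1 : ℕ) : ℝ) + 1) * AA d (k + 1 + 1) m s) * TT d (k + 1) m s := by ring
        have e2 : (((k + 1 : ℕ) : ℝ) + 1) * (TT d (k + 1 + 1) m s * AA d (k + 1) m s) =
          ((((k + 1 : ℕ) : ℝ) + 1) * TT d (k + 1 + 1) m s) * AA d (k + 1) m s := by ring
        rw [e1, e2, hA, hT, hAs, hTs]
        have := mul_le_mul_of_nonneg_left key hs0
        nlinarith
      exact le_of_mul_le_mul_left h3 hk2
    · -- `m < d`, hence `k = 0`
      push Not at hmd
      have hmd' : (m : ℝ) < d := by exact_mod_cast hmd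
      have hk0 : k = 0 := by
        by_contra hcon
        have : (1 : ℝ) ≤ k := by exact_mod_cast (by omega : 1 ≤ k)
        nlinarith
      subst hk0
      simp only [zero_add] at *
      rw [show (1 + 1 : ℕ) = 2 from rfl, AA_two, AA_one,
        H84.ttSmall d 1 m s hd1 (by omega) le_rfl, H84.ttSmall d 2 m s hd1 (by omega) (by omega),
        Nat.choose_one_right, Nat.cast_choose_two]
      have hm0 : (0 : ℝ) ≤ m := Nat.cast_nonneg m
      have h1 : 0 ≤ (m : ℝ) * s * (2 * d - (m + s)) := by
        apply mul_nonneg (mul_nonneg hm0 hs0)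
        linarith
      nlinarith

theorem switch : Ratio.Switch := by
  intro d j n s hd hj hs1 hs2 hsn _
  obtain ⟨k, rfl⟩ : ∃ k, j = k + 2 := ⟨j - 2, by omega⟩
  have e1 : k + 2 - 2 = k := by omega
  have e2 : k + 2 - 1 = k + 1 := by omega
  rw [e1] at hs1
  rw [e2] at hs2 ⊢
  have h1 : (((k + 1 : ℕ) : ℝ) - 1) * d ≤ (s : ℝ) := by
    have : ((k : ℝ)) * d ≤ s := by exact_mod_cast hs1
    push_cast
    linarith
  have h2 : (s : ℝ) < ((k + 1 : ℕ) : ℝ) * d := by exact_mod_cast hs2
  exact switch_all d hd (k + 1) n s h1 h2 (by exact_mod_cast hsn)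

end Pool.Agent.MP_99e3ed_co.H64
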