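import Mathlib
import Pool.Agent.Lib.MP_99e3ed_co.H64.RSwitch

/-!
Ratio form of Kahn's conjecture: monotonicity of the claims for a fixed number of vertices.
-/

set_option autoImplicit false

open Finset
open Pool.Agent.Lib.MP_99e3ed_co
open Pool.Agent.Lib.MP_99e3ed_co.Ratio (TT AA)

namespace Pool.Agent.MP_99e3ed_co.H64

/-! ### log-concavity of kind `T` in `n` -/

lemma TT_level_zero (d n : ℕ) (s : ℝ) :
    TT d 0 n s = ∑ i ∈ range (n / d + 1), H84.bc (s / d) i := by
  unfold Ratio.TT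
  apply sum_congr rfl
  intro i _
  rw [H84.cc_eq, Nat.choose_zero_right]
  simp

lemma bc_le_pow {y : ℝ} (h0 : -1 ≤ y) (h1 : y ≤ 0) (i : ℕ) : H84.bc y i ≤ (1 / 2) ^ i := by
  induction i with
  | zero => simp [H84.bc_zero]
  | succ i ih =>
    rw [H84.bc_succ, pow_succ]
    have hi : (0 : ℝ) ≤ i := Nat.cast_nonneg i
    have h2 : ((i : ℝ) - y) / (2 * ((i : ℝ) + 1)) ≤ 1 / 2 := by
      rw [div_le_div_iff₀ (by positivity) (by norm_num)]
      linarith
    have h3 : 0 ≤ ((i : ℝ) - y) / (2 * ((i : ℝ) + 1)) := div_nonneg (by linarith) (by positivity)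
    exact mul_le_mul ih h2 h3 (by positivity)

lemma TT_zero_bounds {d : ℕ} (hd : 1 ≤ d) {s : ℝ} (h0 : -(d : ℝ) ≤ s) (h1 : s ≤ 0) (n : ℕ) :
    1 ≤ TT d 0 n s ∧ TT d 0 n s ≤ 2 ∧ TT d 0 n s ≤ TT d 0 (n + 1) s := by
  have hd' : (0 : ℝ) < d := by exact_mod_cast hd
  have hy0 : -1 ≤ s / d := by rw [le_div_iff₀ hd']; linarith
  have hy1 : s / d ≤ 0 := div_nonpos_of_nonpos_of_nonneg h1 hd'.le
  rw [TT_level_zero, TT_level_zero]
  refine ⟨?_, ?_, ?_⟩
  · rw [sum_range_succ', H84.bc_zero]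
    have := sum_nonneg (s := range (n / d)) (fun i _ => H84.bc_nonneg hy1 (i + 1))
    linarith
  · calc ∑ i ∈ range (n / d + 1), H84.bc (s / d) i ≤ ∑ i ∈ range (n / d + 1), (1 / 2 : ℝ) ^ i :=
        sum_le_sum (fun i _ => bc_le_pow hy0 hy1 i)
      _ ≤ 2 := by
        rw [geom_sum_eq (by norm_num)]
        have : (0 : ℝ) < (1 / 2) ^ (n / d + 1) := by positivity
        rw [div_le_iff_of_neg (by norm_num)]
        linarith
  · apply sum_le_sum_of_subset_of_nonneg
    · apply range_subset_range.2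
      have := Nat.div_le_div_right (c := d) (Nat.le_succ n)
      simp only [Nat.succ_eq_add_one] at this
      omega
    · intro i _ _
      exact H84.bc_nonneg hy1 i

/-- the level-two base case -/
lemma newton_base {d : ℕ} (hd : 1 ≤ d) {s : ℝ} (h0 : -(d : ℝ) ≤ s) (h1 : s ≤ 0) (n : ℕ) :
    TT d 2 n s * TT d 0 n s ≤ TT d 1 n s ^ 2 := by
  have hz := TT_zero_bounds hd h0 h1
  have hp1 : ∀ m, TT d 1 (m + 1) s = TT d 1 m s + TT d 0 m s :=
    fun m => H84.ttPascal d 0 m s hd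
  have hp2 : ∀ m, TT d 2 (m + 1) s = TT d 2 m s + TT d 1 m s :=
    fun m => H84.ttPascal d 1 m s hd
  have hT10 : TT d 1 0 s = 0 := H84.ttZero d 1 0 s hd (by omega)
  have hT20 : TT d 2 0 s = 0 := H84.ttZero d 2 0 s hd (by omega)
  have hA : ∀ m : ℕ, (m : ℝ) ≤ TT d 1 m s ∧ TT d 1 m s ≤ m * TT d 0 m s := by
    intro m
    induction m with
    | zero => rw [hT10]; simp
    | succ m ih =>
      obtain ⟨a, b, c⟩ := hz m
      rw [hp1]
      have hm : (0 : ℝ) ≤ m := Nat.cast_nonneg m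
      push_cast
      refine ⟨by linarith [ih.1], ?_⟩
      have : (m + 1 : ℝ) * TT d 0 m s ≤ (m + 1) * TT d 0 (m + 1) s :=
        mul_le_mul_of_nonneg_left c (by linarith)
      linarith [ih.2]
  have hB : ∀ m : ℕ, 2 * TT d 2 (m + 1) s ≤ m * TT d 1 (m + 1) s := by
    intro m
    induction m with
    | zero =>
      rw [hp2, hT20, hT10]; simp
    | succ m ih =>
      have h2 := hp2 (m + 1)
      have h3 := hp1 (m + 1)
      have h4 := (hA (m + 1)).2
      push_cast at h4 ⊢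
      rw [h2, h3]
      linarith
  cases n with
  | zero => rw [hT20, zero_mul]; positivity
  | succ m =>
    have a := hA (m + 1)
    have b := hB m
    obtain ⟨c1, c2, _⟩ := hz (m + 1)
    have hm : (0 : ℝ) ≤ m := Nat.cast_nonneg m
    have hT1 : 0 ≤ TT d 1 (m + 1) s := by
      have := a.1
      push_cast at this
      linarith
    have h5 : 2 * (TT d 2 (m + 1) s * TT d 0 (m + 1) s) ≤
        (m * TT d 1 (m + 1) s) * 2 := by
      have : 2 * TT d 2 (m + 1) s * TT d 0 (m + 1) s ≤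
          m * TT d 1 (m + 1) s * TT d 0 (m + 1) s :=
        mul_le_mul_of_nonneg_right b (by linarith)
      have h6 : m * TT d 1 (m + 1) s * TT d 0 (m + 1) s ≤ m * TT d 1 (m + 1) s * 2 :=
        mul_le_mul_of_nonneg_left c2 (by positivity)
      linarith
    have h7 : (m : ℝ) * TT d 1 (m + 1) s ≤ TT d 1 (m + 1) s * TT d 1 (m + 1) s := by
      apply mul_le_mul_of_nonneg_right _ hT1
      have := a.1
      push_cast at this
      linarith
    nlinarith

/-- Newton inequalities are inherited by partial sums -/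
lemma newton_neg {d : ℕ} (hd : 1 ≤ d) {s : ℝ} (h0 : -(d : ℝ) ≤ s) (h1 : s ≤ 0) (k : ℕ) :
    ∀ n, TT d (k + 2) n s * TT d k n s ≤ TT d (k + 1) n s ^ 2 := by
  have hnn : ∀ k n, 0 ≤ TT d k n s := fun k n => TT_nonneg' hd (by
    have : (0 : ℝ) ≤ k * d := by positivity
    linarith)
  induction k with
  | zero => exact fun n => newton_base hd h0 h1 n
  | succ k ih =>
    intro n
    induction n with
    | zero =>
      rw [H84.ttZero d (k + 1 + 2) 0 s hd (by omega), zero_mul]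
      positivity
    | succ n ihn =>
      have p1 : TT d (k + 1) (n + 1) s = TT d (k + 1) n s + TT d k n s :=
        H84.ttPascal d k n s hd
      have p2 : TT d (k + 1 + 1) (n + 1) s = TT d (k + 1 + 1) n s + TT d (k + 1) n s :=
        H84.ttPascal d (k + 1) n s hd
      have p3 : TT d (k + 1 + 2) (n + 1) s = TT d (k + 1 + 2) n s + TT d (k + 1 + 1) n s :=
        H84.ttPascal d (k + 1 + 1) n s hd
      rw [p1, p2, p3]
      have a := ih n
      have e : k + 2 = k + 1 + 1 := rfl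
      rw [e] at a
      set x0 := TT d k n s
      set x1 := TT d (k + 1) n s
      set x2 := TT d (k + 1 + 1) n s with hx2
      set x3 := TT d (k + 1 + 2) n s with hx3
      have n0 : 0 ≤ x0 := hnn _ _
      have n1 : 0 ≤ x1 := hnn _ _
      have n2 : 0 ≤ x2 := hnn _ _
      have n3 : 0 ≤ x3 := hnn _ _
      have hcross : x3 * x0 ≤ x2 * x1 := by
        by_cases h2 : n < k + 2
        · have : x3 = 0 := by
            rw [hx3]; exact H84.ttZero d _ n s hd (by omega)
          rw [this, zero_mul]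
          positivity
        · have q2 : 0 < x2 := by
            rw [hx2]
            exact TT_pos' hd (by
              have : (0 : ℝ) ≤ ((k + 1 + 1 : ℕ) : ℝ) * d := by positivity
              linarith) (by omega)
          have q1 : 0 < x1 := TT_pos' hd (by
              have : (0 : ℝ) ≤ ((k + 1 : ℕ) : ℝ) * d := by positivity
              linarith) (by omega)
          have h3 : (x2 * x1) * (x3 * x0) ≤ (x2 * x1) * (x2 * x1) := by
            have h4 : (x3 * x1) * (x2 * x0) ≤ x2 ^ 2 * x1 ^ 2 :=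
              mul_le_mul ihn a (by positivity) (by positivity)
            nlinarith
          exact le_of_mul_le_mul_left h3 (by positivity)
      nlinarith

lemma T_zero_imp {d : ℕ} (hd : 1 ≤ d) {k m : ℕ} {s : ℝ} (hs : s ≤ k * d)
    (h : TT d k m s = 0) : TT d (k + 1) m s = 0 := by
  have : m < k := by
    by_contra hcon
    have := TT_pos' (n := m) hd hs (by omega)
    linarith
  exact H84.ttZero d _ m s hd (by omega)

/-- the ratio `T_{k+1}/T_k` is nondecreasing in `n` if the Newton inequality holds -/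
lemma ratio_mono_of {d : ℕ} (hd : 1 ≤ d) {k : ℕ} {s : ℝ} (hs : s ≤ k * d)
    (hN : ∀ n, TT d (k + 2) n s * TT d k n s ≤ TT d (k + 1) n s ^ 2) {m n : ℕ} (hmn : m ≤ n) :
    TT d (k + 2) m s * TT d (k + 1) n s ≤ TT d (k + 1) m s * TT d (k + 2) n s := by
  obtain ⟨r, rfl⟩ := Nat.exists_eq_add_of_le hmn
  have hd0 : (0 : ℝ) < d := by exact_mod_cast hd
  have hs1 : s ≤ ((k + 1 : ℕ) : ℝ) * d := by push_cast; nlinarith
  apply chain_aux (a := fun i => TT d (k + 2) i s) (a0 := fun i => TT d (k + 1) i s)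
    (t := fun i => TT d (k + 1) i s) (t0 := fun i => TT d k i s)
  · intro i; exact H84.ttPascal d (k + 1) i s hd
  · intro i; exact H84.ttPascal d k i s hd
  · intro i; exact TT_nonneg' hd hs1
  · intro i; exact TT_nonneg' hd hs
  · intro h0; exact (T_zero_imp hd hs1 h0).le
  · intro i _
    have := hN (m + i)
    nlinarith

theorem newton {d : ℕ} (hd : 1 ≤ d) (k : ℕ) : ∀ (n : ℕ) (s : ℝ), -(d : ℝ) ≤ s → s ≤ k * d →
    TT d (k + 2) n s * TT d k n s ≤ TT d (k + 1) n s ^ 2 := by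
  have hd0 : (0 : ℝ) < d := by exact_mod_cast hd
  induction k with
  | zero => exact fun n s h0 h1 => newton_neg hd h0 (by simpa using h1) 0 n
  | succ k ih =>
    intro n s h0 h1
    push_cast at h1
    rcases le_total s 0 with hs | hs
    · exact newton_neg hd h0 hs (k + 1) n
    have hsd0 : -(d : ℝ) ≤ s - d := by linarith
    have hsd1 : s - d ≤ k * d := by linarith
    -- comparison of `T(n,s)` and `T(n,s-d)`
    have hcmp : TT d (k + 2) n (s - d) * TT d (k + 1) n s ≤
        TT d (k + 1) n (s - d) * TT d (k + 2) n s := by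
      by_cases hdn : d ≤ n
      · have a1 := H84.ttShift d (k + 1) n s hd hdn
        have a2 := H84.ttShift d (k + 2) n s hd hdn
        have hR := ratio_mono_of hd (k := k) (s := s - d) hsd1
          (fun n => ih n (s - d) hsd0 hsd1) (Nat.sub_le n d)
        rw [a1, a2]
        nlinarith
      · rw [H84.ttSmall d (k + 1) n s hd (by omega) (by omega),
          H84.ttSmall d (k + 2) n s hd (by omega) (by omega),
          H84.ttSmall d (k + 1) n (s - d) hd (by omega) (by omega),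
          H84.ttSmall d (k + 2) n (s - d) hd (by omega) (by omega)]
        rw [mul_comm]
    have b1 := TT_same hd (k + 1) n s
    have b2 := TT_same hd (k + 2) n s
    have n1 : 0 ≤ TT d (k + 1) n s := TT_nonneg' hd (by push_cast; linarith)
    have n2 : 0 ≤ TT d (k + 2) n s := TT_nonneg' hd (by push_cast; linarith)
    push_cast at b1 b2
    have e1 : k + 1 + 1 = k + 2 := rfl
    have e2 : k + 1 + 2 = k + 3 := rfl
    have e3 : k + 2 + 1 = k + 3 := rfl
    rw [e1] at b1 ⊢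
    rw [e3] at b2
    rw [e2]
    set t1 := TT d (k + 1) n s
    set t2 := TT d (k + 2) n s
    set t3 := TT d (k + 3) n s
    set u1 := TT d (k + 1) n (s - d)
    set u2 := TT d (k + 2) n (s - d)
    have hk : (0 : ℝ) < (k : ℝ) + 2 + 1 := by positivity
    have h5 : ((k : ℝ) + 2 + 1) * (t3 * t1) ≤ ((k : ℝ) + 2 + 1) * t2 ^ 2 := by
      have e4 : ((k : ℝ) + 2 + 1) * (t3 * t1) = (((k : ℝ) + 2 + 1) * t3) * t1 := by ring
      have e5 : ((k : ℝ) + 2 + 1) * t2 ^ 2 = (((k : ℝ) + 1 + 1) * t2) * t2 + t2 ^ 2 := by ring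
      rw [e4, e5, b1, b2]
      have h6 := mul_le_mul_of_nonneg_left hcmp hs
      nlinarith [mul_nonneg n1 n2, sq_nonneg t2]
    exact le_of_mul_le_mul_left h5 hk

/-- the ratio `T_{k+2}/T_{k+1}` is nondecreasing in `n` -/
theorem ratio_mono {d : ℕ} (hd : 1 ≤ d) {k : ℕ} {s : ℝ} (h0 : -(d : ℝ) ≤ s) (hs : s ≤ k * d)
    {m n : ℕ} (hmn : m ≤ n) :
    TT d (k + 2) m s * TT d (k + 1) n s ≤ TT d (k + 1) m s * TT d (k + 2) n s :=
  ratio_mono_of hd hs (fun n => newton hd k n s h0 hs) hmn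

/-- `T(m,s-d) ≤ 2 T(m,s)` -/
lemma TT_le_two {d : ℕ} (hd : 1 ≤ d) {k m : ℕ} {s : ℝ} (hs : s - d ≤ k * d) :
    TT d (k + 1) m (s - d) ≤ 2 * TT d (k + 1) m s := by
  by_cases hdm : d ≤ m
  · rw [H84.ttShift d (k + 1) m s hd hdm]
    have : TT d (k + 1) (m - d) (s - d) ≤ TT d (k + 1) m (s - d) := by
      rw [H84.ratio_TT hd, H84.ratio_TT hd]
      exact H84.TT_mono hd hs (Nat.sub_le m d)
    linarith
  · rw [H84.ttSmall d (k + 1) m s hd (by omega) (by omega),
      H84.ttSmall d (k + 1) m (s - d) hd (by omega) (by omega)]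
    have : (0 : ℝ) ≤ (m.choose (k + 1) : ℝ) := by positivity
    linarith

/-- log-concavity over a gap of length `d` -/
lemma gap {d : ℕ} (hd : 1 ≤ d) {k n : ℕ} {s : ℝ} (h0 : -(d : ℝ) ≤ s) (hs : s ≤ k * d) :
    TT d (k + 2) (n + d + 1) s * TT d (k + 2) n s ≤
      TT d (k + 2) (n + d) s * TT d (k + 2) (n + 1) s := by
  have h1 : TT d (k + 2) (n + d + 1) s = TT d (k + 2) (n + d) s + TT d (k + 1) (n + d) s :=
    H84.ttPascal d (k + 1) (n + d) s hd
  have h2 : TT d (k + 2) (n + 1) s = TT d (k + 2) n s + TT d (k + 1) n s :=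
    H84.ttPascal d (k + 1) n s hd
  have h3 := ratio_mono hd h0 hs (Nat.le_add_right n d)
  rw [h1, h2]
  nlinarith

theorem monoT (hb : Ratio.TTb) : Ratio.MonoT := by
  intro d j n s hd hj hs1 hsj hsn
  have hd1 : 1 ≤ d := by omega
  obtain ⟨k, rfl⟩ : ∃ k, j = k + 3 := ⟨j - 3, by omega⟩
  obtain ⟨m, rfl⟩ : ∃ m, n = m + 1 := ⟨n - 1, by omega⟩
  have e1 : k + 3 - 1 = k + 2 := by omega
  have e2 : k + 3 - 2 = k + 1 := by omega
  rw [e1, Nat.add_sub_cancel]
  rw [e2] at hsj
  have hsj' : (s : ℝ) + 1 ≤ ((k : ℝ) + 1) * d := by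
    have : s + 1 ≤ (k + 1) * d := by omega
    exact_mod_cast this
  have hd0 : (3 : ℝ) ≤ d := by exact_mod_cast hd
  have hs0 : (1 : ℝ) ≤ s := by exact_mod_cast hs1
  have hsm : (s : ℝ) + 1 ≤ m := by
    have : s + 1 ≤ m := by omega
    exact_mod_cast this
  have hk : (0 : ℝ) ≤ k := Nat.cast_nonneg k
  by_cases hmk : m < k + 3
  · rw [H84.ttZero d (k + 3) m _ hd1 hmk, zero_mul]
    apply mul_nonneg
    · apply TT_nonneg' hd1
      push_cast
      nlinarith
    · apply TT_nonneg' hd1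
      push_cast
      nlinarith
  push Not at hmk
  -- positivity
  have pb : 0 < TT d (k + 2) m ((s : ℝ) + 1) := TT_pos' hd1 (by push_cast; nlinarith) (by omega)
  have pe : 0 < TT d (k + 2) m (s : ℝ) := TT_pos' hd1 (by push_cast; nlinarith) (by omega)
  have pE : 0 < TT d (k + 2) (m + 1) (s : ℝ) :=
    TT_pos' hd1 (by push_cast; nlinarith) (by omega)
  have pe' : 0 ≤ TT d (k + 2) m ((s : ℝ) - d) := TT_nonneg' hd1 (by push_cast; nlinarith)
  -- (b)
  have hTb := hb d (k + 3) (m + 1) (s + 1) hd (by omega) (by omega) (by omega) (by omega)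
    (by
      have e : k + 3 - 1 = k + 2 := by omega
      rw [e]
      nlinarith)
  rw [e1, Nat.add_sub_cancel] at hTb
  push_cast at hTb
  have e5 : (s : ℝ) + 1 - 1 = s := by ring
  rw [e5] at hTb
  -- Pascal
  have q1 : TT d (k + 3) (m + 1) ((s : ℝ) + 1) =
      TT d (k + 3) m ((s : ℝ) + 1) + TT d (k + 2) m ((s : ℝ) + 1) :=
    H84.ttPascal d (k + 2) m _ hd1
  -- recursion at `m+1` and `m+2`
  have r1 := H84.ttRec d (k + 2) m (s : ℝ) hd1
  have r2 := H84.ttRec d (k + 2) (m + 1) (s : ℝ) hd1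
  have q2 : TT d (k + 2 + 1) (m + 1 + 1) (s : ℝ) =
      TT d (k + 2 + 1) (m + 1) s + TT d (k + 2) (m + 1) s :=
    H84.ttPascal d (k + 2) (m + 1) _ hd1
  rw [q2] at r2
  -- monotonicity in `n` of the second term
  have hU : TT d (k + 2) m ((s : ℝ) - d) * TT d (k + 2) (m + 1) (s : ℝ) ≤
      TT d (k + 2) (m + 1) ((s : ℝ) - d) * TT d (k + 2) m (s : ℝ) := by
    by_cases hdm : d ≤ m
    · obtain ⟨i, rfl⟩ : ∃ i, m = i + d := ⟨m - d, by omega⟩
      have a1 := H84.ttShift d (k + 2) (i + d) (s : ℝ) hd1 (by omega)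
      have a2 := H84.ttShift d (k + 2) (i + d + 1) (s : ℝ) hd1 (by omega)
      have hg := gap hd1 (k := k) (n := i) (s := (s : ℝ) - d) (by linarith) (by nlinarith)
      have e6 : i + d - d = i := by omega
      have e7 : i + d + 1 - d = i + 1 := by omega
      rw [e6] at a1
      rw [e7] at a2
      rw [a1, a2]
      nlinarith
    · rw [H84.ttSmall d (k + 2) m _ hd1 (by omega) (by omega),
        H84.ttSmall d (k + 2) (m + 1) _ hd1 (by omega) (by omega),
        H84.ttSmall d (k + 2) m _ hd1 (by omega) (by omega),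
        H84.ttSmall d (k + 2) (m + 1) _ hd1 (by omega) (by omega)]
      rw [mul_comm]
  have hle2 : TT d (k + 2) m ((s : ℝ) - d) ≤ 2 * TT d (k + 2) m (s : ℝ) := by
    have := TT_le_two hd1 (k := k + 1) (m := m) (s := (s : ℝ)) (by push_cast; nlinarith)
    exact this
  push_cast at r1 r2
  have e8 : k + 2 + 1 = k + 3 := rfl
  rw [e8] at r1 r2
  set a := TT d (k + 3) m ((s : ℝ) + 1)
  set b := TT d (k + 2) m ((s : ℝ) + 1)
  set W := TT d (k + 3) (m + 1) (s : ℝ)
  set e := TT d (k + 2) m (s : ℝ)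
  set E := TT d (k + 2) (m + 1) (s : ℝ)
  set e' := TT d (k + 2) m ((s : ℝ) - d)
  set E' := TT d (k + 2) (m + 1) ((s : ℝ) - d)
  rw [q1] at hTb
  -- `hTb : (m+1+(s+1)-1) * ((a+b)*e) ≤ (m+1+(s+1)) * (W*b)`
  -- `r1 : (k+3) W = (m+1-s) e + s e'`, `r2 : (k+3)(W+E) = (m+1+1-s) E + s E'`
  have hf : 0 < (m : ℝ) + 1 + s := by positivity
  have hk3 : 0 < (k : ℝ) + 2 + 1 := by positivity
  -- (A) `(k+3) W ≤ (m+1+s) e`
  have hA : ((k : ℝ) + 2 + 1) * W ≤ ((m : ℝ) + 1 + s) * e := by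
    rw [r1]
    have := mul_le_mul_of_nonneg_left hle2 (by linarith : (0 : ℝ) ≤ s)
    linarith
  -- (B) `(k+3) (W+E) e ≥ ((k+3) W + e) E`
  have hB : (((k : ℝ) + 2 + 1) * W + e) * E ≤ ((k : ℝ) + 2 + 1) * (W + E) * e := by
    rw [r2, r1]
    have := mul_le_mul_of_nonneg_left hU (by linarith : (0 : ℝ) ≤ s)
    linarith
  -- goal: `a * E ≤ W * b`
  -- from hTb: (m+1+s) (a+b) e ≤ (m+1+s) W b + W b
  have h1 : ((m : ℝ) + 1 + s) * ((a + b) * e) ≤ ((m : ℝ) + 1 + s) * (W * b) + W * b := by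
    have e9 : ((m : ℝ) + 1 + (s + 1) - 1) = (m : ℝ) + 1 + s := by ring
    rw [e9] at hTb
    linarith
  -- multiply by (k+3): (k+3) W b ≤ (m+1+s) e b
  have h2 : ((k : ℝ) + 2 + 1) * (W * b) ≤ ((m : ℝ) + 1 + s) * (e * b) := by
    have := mul_le_mul_of_nonneg_right hA pb.le
    linarith
  have h3 : ((k : ℝ) + 2 + 1) * ((a + b) * e) ≤ ((k : ℝ) + 2 + 1) * (W * b) + e * b := by
    have h4 : ((m : ℝ) + 1 + s) * (((k : ℝ) + 2 + 1) * ((a + b) * e)) ≤
        ((m : ℝ) + 1 + s) * (((k : ℝ) + 2 + 1) * (W * b) + e * b) := by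
      have := mul_le_mul_of_nonneg_left h1 hk3.le
      linarith
    exact le_of_mul_le_mul_left h4 hf
  -- (k+3)(a+b) e E ≤ ((k+3) W + e) E b ≤ (k+3)(W+E) e b
  have h5 : (((k : ℝ) + 2 + 1) * e) * ((a + b) * E) ≤ (((k : ℝ) + 2 + 1) * e) * ((W + E) * b) := by
    have h6 := mul_le_mul_of_nonneg_right h3 pE.le
    have h7 := mul_le_mul_of_nonneg_right hB pb.le
    linarith
  have h8 := le_of_mul_le_mul_left h5 (by positivity)
  linarith

/-! ### kind `A` -/

/-- positivity of kind `A`, levels at least three, for `(k-2) d ≤ s ≤ n` -/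
lemma AA_pos_three (d k : ℕ) (hd : 3 ≤ d) : ∀ (n s : ℤ), ((k : ℤ) + 1) * d ≤ s → s ≤ n →
    0 < AA d (k + 3) (n : ℝ) (s : ℝ) := by
  have hd' : (3 : ℝ) ≤ d := by exact_mod_cast hd
  induction k with
  | zero =>
    intro n s hs hsn
    have hs' : (d : ℝ) ≤ s := by
      have : (d : ℤ) ≤ s := by simpa using hs
      exact_mod_cast this
    have hsn' : (s : ℝ) ≤ n := by exact_mod_cast hsn
    have hrec := AA_rec d 2 (n : ℝ) (s : ℝ)
    rw [AA_two, AA_two] at hrec
    have p1 : 0 < ((n : ℝ) - 1 + s) * ((n : ℝ) - 1 + s - 1) - 2 * s * d := by nlinarith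
    have p2 : 0 < ((n : ℝ) - 1 + (s - d)) * ((n : ℝ) - 1 + (s - d) - 1) - 2 * (s - d) * d := by
      obtain ⟨u, hu⟩ : ∃ u : ℝ, (s : ℝ) = d + u := ⟨s - d, by ring⟩
      obtain ⟨v, hv⟩ : ∃ v : ℝ, (n : ℝ) = s + v := ⟨n - s, by ring⟩
      have hu0 : 0 ≤ u := by linarith
      have hv0 : 0 ≤ v := by linarith
      rw [hv, hu]
      have hdd : 0 < ((d : ℝ) - 1) * (d - 2) := by
        apply mul_pos <;> linarith
      nlinarith [mul_nonneg hu0 (by linarith : (0 : ℝ) ≤ d - 3), mul_nonneg hu0 hv0,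
        mul_nonneg hv0 (by linarith : (0 : ℝ) ≤ 2 * d - 3), sq_nonneg u, sq_nonneg v]
    have h3 : 0 < (((2 : ℕ) : ℝ) + 1) * AA d (2 + 1) (n : ℝ) (s : ℝ) := by
      rw [hrec]
      have := mul_nonneg (sub_nonneg.2 hsn') p1.le
      have h4 : (0 : ℝ) < s := by linarith
      have := mul_pos h4 p2
      linarith
    exact (mul_pos_iff_of_pos_left (by positivity)).1 h3
  | succ k ih =>
    intro n s hs hsn
    push_cast at hs
    have hdz : (3 : ℤ) ≤ d := by exact_mod_cast hd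
    have hkz : (0 : ℤ) ≤ k := Int.natCast_nonneg k
    have hrec := AA_rec d (k + 3) (n : ℝ) (s : ℝ)
    have e1 : ((n : ℝ) - 1) = ((n - 1 : ℤ) : ℝ) := by push_cast; ring
    have e2 : ((s : ℝ) - d) = ((s - d : ℤ) : ℝ) := by push_cast; ring
    have p2 : 0 < AA d (k + 3) ((n : ℝ) - 1) ((s : ℝ) - d) := by
      rw [e1, e2]
      exact ih (n - 1) (s - d) (by nlinarith) (by omega)
    have p1 : 0 ≤ ((n : ℝ) - s) * AA d (k + 3) ((n : ℝ) - 1) (s : ℝ) := by
      rcases hsn.eq_or_lt with h | h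
      · rw [h, sub_self, zero_mul]
      · apply mul_nonneg
        · have : (s : ℝ) ≤ n := by exact_mod_cast hsn
          linarith
        · rw [e1]
          exact (ih (n - 1) s (by nlinarith) (by omega)).le
    have hs0 : (0 : ℝ) < s := by
      have : (0 : ℤ) < s := by nlinarith
      exact_mod_cast this
    have h3 : 0 < (((k + 3 : ℕ) : ℝ) + 1) * AA d (k + 3 + 1) (n : ℝ) (s : ℝ) := by
      rw [hrec]
      have := mul_pos hs0 p2
      linarith
    exact (mul_pos_iff_of_pos_left (by positivity)).1 h3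

lemma AA_pos_two (d k : ℕ) (hd : 3 ≤ d) (n s : ℝ) (hs : (k : ℝ) * d ≤ s) (hsn : s ≤ n)
    (hn : ((k : ℝ) + 1) * d + 1 ≤ n) : 0 < AA d (k + 2) n s :=
  (AA_pos_all d k hd n s hs hsn hn).1

lemma chain_loc {a a0 t t0 : ℕ → ℝ} {m0 : ℕ} : ∀ r : ℕ,
    (∀ i < r, a (m0 + i + 1) = a (m0 + i) + a0 (m0 + i)) →
    (∀ i < r, t (m0 + i + 1) = t (m0 + i) + t0 (m0 + i)) →
    (∀ i ≤ r, 0 < t (m0 + i)) →
    (∀ i < r, a (m0 + i) * t0 (m0 + i) ≤ t (m0 + i) * a0 (m0 + i)) →
      a m0 * t (m0 + r) ≤ t m0 * a (m0 + r) := by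
  intro r
  induction r with
  | zero => intro _ _ _ _; simp [mul_comm]
  | succ r ih =>
    intro ha ht hp h
    have ih' := ih (fun i hi => ha i (by omega)) (fun i hi => ht i (by omega))
      (fun i hi => hp i (by omega)) (fun i hi => h i (by omega))
    have h1 := h r (by omega)
    have hpos := hp r (by omega)
    have hpos1 := hp (r + 1) le_rfl
    have hpos0 := hp 0 (by omega)
    have e : m0 + (r + 1) = (m0 + r) + 1 := by ring
    rw [add_zero] at hpos0
    rw [e] at hpos1 ⊢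
    have h2 : t (m0 + r) * (a m0 * t (m0 + r + 1)) ≤
        t (m0 + r) * (t m0 * a (m0 + r + 1)) := by
      have h3 := mul_le_mul_of_nonneg_right ih' hpos1.le
      have h4 := mul_le_mul_of_nonneg_left h1 hpos0.le
      have h5 := ha r (by omega)
      have h6 := ht r (by omega)
      rw [h5]
      rw [h6] at h3 ⊢
      nlinarith
    exact le_of_mul_le_mul_left h2 hpos

lemma final_aux {K A0 A1 x0 x1 y0 y1 z0 z1 s n : ℝ} (hK : 0 < K) (hs : 0 ≤ s) (hx0 : 0 < x0)
    (e0 : x0 = 2 * y0 - z0) (e1 : x1 = 2 * y1 - z1) (hc : z1 * y0 ≤ z0 * y1) (hz : z1 ≤ y1)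
    (h0 : K * A0 = (n - s - (K - 1)) * x0 + 2 * s * y0)
    (h1 : K * A1 = (n - 1 - (s + 1) - (K - 1)) * x1 + 2 * (s + 1) * y1) :
    A1 * x0 ≤ A0 * x1 := by
  have h2 : K * (A1 * x0) ≤ K * (A0 * x1) := by
    have e2 : K * (A1 * x0) = (K * A1) * x0 := by ring
    have e3 : K * (A0 * x1) = (K * A0) * x1 := by ring
    rw [e2, e3, h0, h1]
    have h3 : y1 * x0 ≤ y0 * x1 := by
      rw [e0, e1]; nlinarith
    have h4 : y1 * x0 ≤ x1 * x0 := mul_le_mul_of_nonneg_right (by linarith) hx0.le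
    have h5 := mul_le_mul_of_nonneg_left h3 hs
    nlinarith
  exact le_of_mul_le_mul_left h2 hK

theorem monoA_all (d : ℕ) (hd : 3 ≤ d) (k : ℕ) : ∀ n s : ℕ, 1 ≤ s → k * d ≤ s → s + 2 ≤ n →
    AA d (k + 2) ((n : ℝ) - 1) (s + 1) * AA d (k + 1) n s ≤
      AA d (k + 2) n s * AA d (k + 1) ((n : ℝ) - 1) (s + 1) := by
  have hd0 : (3 : ℝ) ≤ d := by exact_mod_cast hd
  induction k with
  | zero =>
    intro n s hs1 _ hsn
    rw [zero_add, zero_add, AA_two, AA_two, AA_one, AA_one]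
    have hf : (0 : ℝ) ≤ (n : ℝ) + s := by positivity
    have h2 : (n : ℝ) - 1 + (s + 1) = n + s := by ring
    rw [h2]
    apply mul_le_mul_of_nonneg_right _ hf
    have : (0 : ℝ) ≤ d := by linarith
    linarith
  | succ k ih =>
    intro n s hs1 hks hsn
    have hsn' : (s : ℝ) + 2 ≤ n := by exact_mod_cast hsn
    have hks' : ((k : ℝ) + 1) * d ≤ s := by exact_mod_cast hks
    have hk : (0 : ℝ) ≤ k := Nat.cast_nonneg k
    have hdle : d ≤ s := le_trans (by nlinarith) hks
    have hdn : d ≤ n := by omega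
    have q0 := AA_same d (k + 1 + 1) (n : ℝ) (s : ℝ)
    have q1 := AA_same d (k + 1 + 1) ((n : ℝ) - 1) ((s : ℝ) + 1)
    have s0 := H84.aaShift d (k + 1 + 1) (n : ℝ) (s : ℝ)
    have s1 := H84.aaShift d (k + 1 + 1) ((n : ℝ) - 1) ((s : ℝ) + 1)
    have hx0 : 0 < AA d (k + 1 + 1) (n : ℝ) (s : ℝ) :=
      AA_pos_two d k hd n s (by nlinarith) (by linarith) (by linarith)
    -- `z1 ≤ y1`
    have hz : AA d (k + 1 + 1) ((n : ℝ) - 1 - d) ((s : ℝ) + 1 - d) ≤
        AA d (k + 1 + 1) ((n : ℝ) - 1) ((s : ℝ) + 1 - d) := by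
      apply AA_sub_le
      intro l hl
      have hl' : (l : ℝ) + 1 ≤ d := by exact_mod_cast hl
      cases k with
      | zero =>
        rw [zero_add, AA_one]
        push_cast at hks'
        linarith
      | succ k =>
        push_cast at hks' hk ⊢
        apply le_of_lt
        exact AA_pos_two d k hd _ _ (by nlinarith) (by linarith) (by nlinarith)
    -- `z1 * y0 ≤ z0 * y1`
    have hc : AA d (k + 1 + 1) ((n : ℝ) - 1 - d) ((s : ℝ) + 1 - d) *
        AA d (k + 1 + 1) (n : ℝ) ((s : ℝ) - d) ≤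
        AA d (k + 1 + 1) ((n : ℝ) - d) ((s : ℝ) - d) *
        AA d (k + 1 + 1) ((n : ℝ) - 1) ((s : ℝ) + 1 - d) := by
      cases k with
      | zero =>
        rw [zero_add, show (1 + 1 : ℕ) = 2 from rfl, AA_two, AA_two, AA_two, AA_two]
        push_cast at hks'
        have h1 : 0 ≤ ((n : ℝ) + s - d) * (n + s - d - 1) -
            ((n : ℝ) + s - 2 * d) * (n + s - 2 * d - 1) := by nlinarith
        have h2 := mul_nonneg h1 (by linarith : (0 : ℝ) ≤ 2 * d)
        nlinarith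
      | succ k =>
        have hds : ((s - d : ℕ) : ℝ) = (s : ℝ) - d := by rw [Nat.cast_sub hdle]
        have hks2 : (k + 1) * d ≤ s - d := by
          have : (k + 1 + 1) * d = (k + 1) * d + d := by ring
          omega
        have key := chain_loc (a := fun m : ℕ => AA d (k + 1 + 2) ((m : ℝ) - 1) ((s : ℝ) + 1 - d))
          (a0 := fun m : ℕ => AA d (k + 1 + 1) ((m : ℝ) - 1) ((s : ℝ) + 1 - d))
          (t := fun m : ℕ => AA d (k + 1 + 2) (m : ℝ) ((s : ℝ) - d))
          (t0 := fun m : ℕ => AA d (k + 1 + 1) (m : ℝ) ((s : ℝ) - d)) (m0 := n - d) d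
          (by
            intro i _
            have := H84.aaPascal d (k + 1 + 1) (((n - d + i : ℕ) : ℝ) - 1) ((s : ℝ) + 1 - d)
            have e : ((n - d + i + 1 : ℕ) : ℝ) - 1 = ((n - d + i : ℕ) : ℝ) - 1 + 1 := by
              push_cast; ring
            simp only [e]
            exact this)
          (by
            intro i _
            have := H84.aaPascal d (k + 1 + 1) ((n - d + i : ℕ) : ℝ) ((s : ℝ) - d)
            have e : ((n - d + i + 1 : ℕ) : ℝ) = ((n - d + i : ℕ) : ℝ) + 1 := by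
              push_cast; ring
            simp only [e]
            exact this)
          (by
            intro i _
            have := AA_pos_three d k hd ((n - d + i : ℕ) : ℤ) ((s - d : ℕ) : ℤ)
              (by exact_mod_cast hks2) (by omega)
            have e1 : (((n - d + i : ℕ) : ℤ) : ℝ) = ((n - d + i : ℕ) : ℝ) := by norm_cast
            have e2 : (((s - d : ℕ) : ℤ) : ℝ) = (s : ℝ) - d := by rw [← hds]; norm_cast
            rw [e1, e2] at this
            exact this)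
          (by
            intro i _
            have := ih (n - d + i) (s - d) (by nlinarith) hks2 (by omega)
            rw [hds] at this
            have e : (s : ℝ) - d + 1 = s + 1 - d := by ring
            rw [e] at this
            exact this)
        rw [Nat.sub_add_cancel hdn, Nat.cast_sub hdn] at key
        have e : (n : ℝ) - d - 1 = n - 1 - d := by ring
        rw [e] at key
        exact key
    refine final_aux (K := ((k + 1 + 1 : ℕ) : ℝ) + 1) (s := (s : ℝ)) (n := (n : ℝ))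
      (by positivity) (by positivity) hx0 s0 s1 hc hz ?_ ?_
    · rw [q0]; ring
    · rw [q1]; ring

theorem monoA : Ratio.MonoA := by
  intro d j n s hd hj hs1 hjs hsn
  obtain ⟨k, rfl⟩ : ∃ k, j = k + 2 := ⟨j - 2, by omega⟩
  have e1 : k + 2 - 2 = k := by omega
  have e2 : k + 2 - 1 = k + 1 := by omega
  rw [e1] at hjs
  rw [e2]
  exact monoA_all d hd k n s hs1 hjs hsn

end Pool.Agent.MP_99e3ed_co.H64
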