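import Mathlib
import Pool.Agent.Lib.MP_99e3ed_co.H64.RMono
import Pool.Agent.Lib.MP_99e3ed_co.H59.Defs

/-!
(F-B), the case `s < d`.
-/

set_option autoImplicit false

open Finset
open Pool.Agent.Lib.MP_99e3ed_co
open Pool.Agent.Lib.MP_99e3ed_co.Ratio (TT AA GT GTp)

namespace Pool.Agent.MP_99e3ed_co.H64

lemma choose_step (x m : ℕ) : (x : ℝ) * ((x - 1).choose m : ℝ) ≤ ((x : ℝ) - m) * (x.choose m : ℝ) := by
  cases x with
  | zero =>
    cases m with
    | zero => simp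
    | succ m => simp
  | succ x =>
    rw [Nat.add_sub_cancel]
    by_cases h : m ≤ x
    · have h1 := Nat.add_one_mul_choose_eq x m
      have h2 := Nat.choose_succ_right_eq (x + 1) m
      have h3 : ((x : ℝ) + 1) * (x.choose m : ℝ) = ((x + 1).choose (m + 1) : ℝ) * ((m : ℝ) + 1) := by
        exact_mod_cast h1
      have h4 : ((x + 1).choose (m + 1) : ℝ) * ((m : ℝ) + 1) =
          ((x + 1).choose m : ℝ) * (((x + 1 - m : ℕ) : ℝ)) := by
        exact_mod_cast h2
      rw [Nat.cast_sub (by omega)] at h4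
      push_cast at h4 ⊢
      linarith
    · rw [Nat.choose_eq_zero_of_lt (by omega)]
      rcases Nat.lt_or_ge (x + 1) m with h5 | h5
      · rw [Nat.choose_eq_zero_of_lt h5]; simp
      · have : m = x + 1 := by omega
        rw [this]
        push_cast
        simp

lemma choose_step_eq {x m : ℕ} (h : 1 ≤ x) :
    (x : ℝ) * ((x - 1).choose m : ℝ) = ((x : ℝ) - m) * (x.choose m : ℝ) := by
  obtain ⟨x, rfl⟩ : ∃ y, x = y + 1 := ⟨x - 1, by omega⟩
  rw [Nat.add_sub_cancel]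
  by_cases h : m ≤ x
  · have h1 := Nat.add_one_mul_choose_eq x m
    have h2 := Nat.choose_succ_right_eq (x + 1) m
    have h3 : ((x : ℝ) + 1) * (x.choose m : ℝ) = ((x + 1).choose (m + 1) : ℝ) * ((m : ℝ) + 1) := by
      exact_mod_cast h1
    have h4 : ((x + 1).choose (m + 1) : ℝ) * ((m : ℝ) + 1) =
        ((x + 1).choose m : ℝ) * (((x + 1 - m : ℕ) : ℝ)) := by
      exact_mod_cast h2
    rw [Nat.cast_sub (by omega)] at h4
    push_cast at h4 ⊢
    linarith
  · rw [Nat.choose_eq_zero_of_lt (by omega)]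
    rcases Nat.lt_or_ge (x + 1) m with h5 | h5
    · rw [Nat.choose_eq_zero_of_lt h5]; simp
    · have : m = x + 1 := by omega
      rw [this]
      push_cast
      simp

/-- comparison of two binomial ratios -/
lemma choose_cmp {d k n a : ℕ} (ha : a + 1 + d ≤ n) (hn : n ≤ (k + 1) * (d + 1)) (C : ℕ)
    (hC : C ≤ a) :
    ((a - C).choose k : ℝ) * (n.choose (k + 1) : ℝ) ≤
      ((n - C).choose (k + 1) : ℝ) * (a.choose k : ℝ) := by
  induction C with
  | zero => simp [mul_comm]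
  | succ C ih =>
    have ih' := ih (by omega)
    have e1 : a - (C + 1) = (a - C) - 1 := by omega
    have e2 : n - (C + 1) = (n - C) - 1 := by omega
    have h1 := choose_step_eq (x := a - C) (m := k) (by omega)
    have h2 := choose_step_eq (x := n - C) (m := k + 1) (by omega)
    rw [e1, e2]
    have hx : (0 : ℝ) < ((a - C : ℕ) : ℝ) := by
      exact_mod_cast (by omega : 0 < a - C)
    have hy : (0 : ℝ) < ((n - C : ℕ) : ℝ) := by
      exact_mod_cast (by omega : 0 < n - C)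
    have hcmp : (((a - C : ℕ) : ℝ) - k) * ((n - C : ℕ) : ℝ) ≤
        (((n - C : ℕ) : ℝ) - ((k + 1 : ℕ) : ℝ)) * ((a - C : ℕ) : ℝ) := by
      have h3 : (k + 1) * (a - C) ≤ k * (n - C) := by
        obtain ⟨b, hb⟩ : ∃ b, a - C = b := ⟨_, rfl⟩
        obtain ⟨c, hc⟩ : ∃ c, n - C = b + 1 + d + c := ⟨n - C - (b + 1 + d), by omega⟩
        rw [hb, hc]
        have h4 : b + 1 + d + c ≤ (k + 1) * (d + 1) := by omega
        nlinarith
      have h4 : ((k : ℝ) + 1) * ((a - C : ℕ) : ℝ) ≤ k * ((n - C : ℕ) : ℝ) := by exact_mod_cast h3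
      push_cast
      nlinarith
    set x := ((a - C : ℕ) : ℝ)
    set y := ((n - C : ℕ) : ℝ)
    set P := (((a - C) - 1).choose k : ℝ)
    set Q := (((n - C) - 1).choose (k + 1) : ℝ)
    set P0 := ((a - C).choose k : ℝ)
    set Q0 := ((n - C).choose (k + 1) : ℝ)
    have n1 : (0 : ℝ) ≤ (n.choose (k + 1) : ℝ) := by positivity
    have n2 : (0 : ℝ) ≤ (a.choose k : ℝ) := by positivity
    have nQ0 : (0 : ℝ) ≤ Q0 := by positivity
    rcases le_or_gt (x - k) 0 with hxk | hxk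
    · have hP : P ≤ 0 := by
        have : x * P ≤ 0 := by
          rw [h1]; exact mul_nonpos_of_nonpos_of_nonneg hxk (by positivity)
        by_contra hcon
        push Not at hcon
        have := mul_pos hx hcon
        linarith
      have hP0 : P = 0 := le_antisymm hP (by positivity)
      rw [hP0, zero_mul]
      positivity
    · have h5 : (x * y) * (P * (n.choose (k + 1) : ℝ)) ≤ (x * y) * (Q * (a.choose k : ℝ)) := by
        have e3 : (x * y) * (P * (n.choose (k + 1) : ℝ)) =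
            y * ((x * P) * (n.choose (k + 1) : ℝ)) := by ring
        have e4 : (x * y) * (Q * (a.choose k : ℝ)) = x * ((y * Q) * (a.choose k : ℝ)) := by ring
        rw [e3, e4, h1, h2]
        have h6 := mul_le_mul_of_nonneg_left ih' (mul_nonneg hy.le hxk.le)
        have h7 := mul_le_mul_of_nonneg_right hcmp (mul_nonneg nQ0 n2)
        linarith
      exact le_of_mul_le_mul_left h5 (mul_pos hx hy)

lemma kr_cmp {d k n a : ℕ} (hk : 1 ≤ k) (ha : a + 1 + d ≤ n) (hn : n ≤ (k + 1) * (d + 1))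
    (i : ℕ) :
    H84.kr d a k i * (n.choose (k + 1) : ℝ) ≤ H84.kr d n (k + 1) i * (a.choose k : ℝ) := by
  have h0 := H84.kr_nonneg d n (k + 1) i
  unfold H84.kr at h0 ⊢
  by_cases h1 : d * i ≤ a
  · rw [if_pos h1, if_pos (by omega)]
    exact choose_cmp ha hn (d * i) h1
  · rw [if_neg h1, zero_mul]
    exact mul_nonneg h0 (by positivity)

lemma TT_eq_sum {d : ℕ} (hd : 1 ≤ d) (k n : ℕ) (s : ℝ) {N : ℕ} (hN : n + 1 ≤ N) :
    TT d k n s = ∑ i ∈ range N, H84.bc (s / d) i * H84.kr d n k i := by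
  rw [H84.ratio_TT hd]
  unfold H84.TT
  rw [← H84.Tsh_range hd k n 0 s hN]
  simp

lemma bc_nonpos {y : ℝ} (h0 : 0 ≤ y) (h1 : y ≤ 1) (i : ℕ) : H84.bc y (i + 1) ≤ 0 := by
  induction i with
  | zero =>
    rw [H84.bc_succ, H84.bc_zero]
    push_cast
    have : (0 - y) / (2 * (0 + 1)) ≤ 0 := div_nonpos_of_nonpos_of_nonneg (by linarith) (by norm_num)
    linarith
  | succ i ih =>
    rw [H84.bc_succ]
    apply mul_nonpos_of_nonpos_of_nonneg ih
    push_cast
    have : (0 : ℝ) ≤ i := Nat.cast_nonneg i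
    exact div_nonneg (by linarith) (by positivity)

/-- first comparison, `0 ≤ s ≤ d` -/
lemma cmp_pos {d k n a : ℕ} (hd : 1 ≤ d) (hk : 1 ≤ k) (ha : a + 1 + d ≤ n)
    (hn : n ≤ (k + 1) * (d + 1)) {s : ℝ} (h0 : 0 ≤ s) (h1 : s ≤ d) :
    TT d (k + 1) n s * (a.choose k : ℝ) ≤ TT d k a s * (n.choose (k + 1) : ℝ) := by
  have hd' : (0 : ℝ) < d := by exact_mod_cast hd
  rw [TT_eq_sum hd (k + 1) n s (N := n + 1) le_rfl, TT_eq_sum hd k a s (N := n + 1) (by omega),
    sum_mul, sum_mul]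
  apply sum_le_sum
  intro i _
  cases i with
  | zero =>
    rw [H84.bc_zero]
    have e1 : H84.kr d n (k + 1) 0 = (n.choose (k + 1) : ℝ) := by simp [H84.kr]
    have e2 : H84.kr d a k 0 = (a.choose k : ℝ) := by simp [H84.kr]
    rw [e1, e2, one_mul, one_mul, mul_comm]
  | succ i =>
    have hb := bc_nonpos (y := s / d) (div_nonneg h0 hd'.le) (by rw [div_le_one hd']; exact h1) i
    have := mul_le_mul_of_nonpos_left (kr_cmp hk ha hn (i + 1)) hb
    rw [mul_assoc, mul_assoc]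
    exact this

/-- first comparison, `-d ≤ s ≤ 0` -/
lemma cmp_neg {d k n a : ℕ} (hd : 1 ≤ d) (hk : 1 ≤ k) (ha : a + 1 + d ≤ n)
    (hn : n ≤ (k + 1) * (d + 1)) {s : ℝ} (h1 : s ≤ 0) :
    TT d k a s * (n.choose (k + 1) : ℝ) ≤ TT d (k + 1) n s * (a.choose k : ℝ) := by
  have hd' : (0 : ℝ) < d := by exact_mod_cast hd
  rw [TT_eq_sum hd (k + 1) n s (N := n + 1) le_rfl, TT_eq_sum hd k a s (N := n + 1) (by omega),
    sum_mul, sum_mul]
  apply sum_le_sum
  intro i _
  have hb := H84.bc_nonneg (y := s / d) (div_nonpos_of_nonpos_of_nonneg h1 hd'.le) i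
  have := mul_le_mul_of_nonneg_left (kr_cmp hk ha hn i) hb
  rw [mul_assoc, mul_assoc]
  exact this

/-- second comparison, `0 ≤ s ≤ d` -/
lemma cmp2_pos {d k n : ℕ} (hd : 1 ≤ d) (hk : 1 ≤ k) (hn : n ≤ (k + 1) * (d + 1)) {s : ℝ}
    (h0 : 0 ≤ s) (h1 : s ≤ d) : ∀ a : ℕ, a + 1 + d ≤ n →
    TT d (k + 1) n s * TT d k a (-(d : ℝ)) ≤ TT d k a (s - d) * (n.choose (k + 1) : ℝ) := by
  intro a
  induction a using Nat.strong_induction_on with
  | _ a ih =>
    intro ha
    have hc := cmp_pos hd hk ha hn h0 h1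
    by_cases hda : d ≤ a
    · have ih' := ih (a - d) (by omega) (by omega)
      have e1 := H84.ttShift d k a s hd hda
      have e2 := H84.ttShift d k a 0 hd hda
      rw [TT_zero_right, zero_sub] at e2
      have e3 : TT d k a (s - d) = TT d k a s + TT d k (a - d) (s - d) / 2 := by linarith
      have e4 : TT d k a (-(d : ℝ)) = (a.choose k : ℝ) + TT d k (a - d) (-(d : ℝ)) / 2 := by
        linarith
      rw [e3, e4]
      linarith
    · rw [H84.ttSmall d k a _ hd (by omega) hk, H84.ttSmall d k a _ hd (by omega) hk]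
      rw [H84.ttSmall d k a _ hd (by omega) hk] at hc
      exact hc

/-- second comparison, `s ≤ 0` -/
lemma cmp2_neg {d k n : ℕ} (hd : 1 ≤ d) (hk : 1 ≤ k) (hn : n ≤ (k + 1) * (d + 1)) {s : ℝ}
    (h1 : s ≤ 0) : ∀ a : ℕ, a + 1 + d ≤ n →
    TT d k a (s - d) * (n.choose (k + 1) : ℝ) ≤ TT d (k + 1) n s * TT d k a (-(d : ℝ)) := by
  intro a
  induction a using Nat.strong_induction_on with
  | _ a ih =>
    intro ha
    have hc := cmp_neg hd hk ha hn h1
    by_cases hda : d ≤ a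
    · have ih' := ih (a - d) (by omega) (by omega)
      have e1 := H84.ttShift d k a s hd hda
      have e2 := H84.ttShift d k a 0 hd hda
      rw [TT_zero_right, zero_sub] at e2
      have e3 : TT d k a (s - d) = TT d k a s + TT d k (a - d) (s - d) / 2 := by linarith
      have e4 : TT d k a (-(d : ℝ)) = (a.choose k : ℝ) + TT d k (a - d) (-(d : ℝ)) / 2 := by
        linarith
      rw [e3, e4]
      linarith
    · rw [H84.ttSmall d k a _ hd (by omega) hk, H84.ttSmall d k a _ hd (by omega) hk]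
      rw [H84.ttSmall d k a _ hd (by omega) hk] at hc
      exact hc

/-- `E(x) = (T_{k-1}(n-1,x-d) - T_{k-1}(n-1,x)) / T_k(n,x)` -/
noncomputable def EE (d k n : ℕ) (x : ℝ) : ℝ :=
  (TT d (k - 1) (n - 1) (x - d) - TT d (k - 1) (n - 1) x) / TT d k n x

lemma GT_EE {d k n : ℕ} (hd : 1 ≤ d) (hk : 1 ≤ k) (hkn : k ≤ n) {x : ℝ} (hx : x ≤ k * d) :
    (n : ℝ) * GT d k n x = k - x * EE d k n x := by
  obtain ⟨j, rfl⟩ : ∃ j, k = j + 1 := ⟨k - 1, by omega⟩
  obtain ⟨m, rfl⟩ : ∃ m, n = m + 1 := ⟨n - 1, by omega⟩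
  have hp : 0 < TT d (j + 1) (m + 1) x := TT_pos' hd hx hkn
  have h := H84.ttRec d j m x hd
  unfold Ratio.GT EE
  simp only [Nat.add_sub_cancel]
  field_simp
  push_cast
  linarith

lemma EE_mono {d k n : ℕ} (hd : 1 ≤ d) (hk : 2 ≤ k) (hkn : k ≤ n) (hn : n ≤ k * (d + 1)) {s : ℝ}
    (h0 : 0 ≤ s) (h1 : s ≤ d) : EE d k n (s - d) ≤ EE d k n s := by
  obtain ⟨j, rfl⟩ : ∃ j, k = j + 1 := ⟨k - 1, by omega⟩
  obtain ⟨m, rfl⟩ : ∃ m, n = m + 1 := ⟨n - 1, by omega⟩
  have hd' : (0 : ℝ) < d := by exact_mod_cast hd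
  have hj : (1 : ℝ) ≤ j := by exact_mod_cast (by omega : 1 ≤ j)
  have hpa : 0 < TT d (j + 1) (m + 1) s := TT_pos' hd (by push_cast; nlinarith) hkn
  have hpb : 0 < TT d (j + 1) (m + 1) (s - d) := TT_pos' hd (by push_cast; nlinarith) hkn
  have hC : (0 : ℝ) < ((m + 1).choose (j + 1) : ℝ) := by exact_mod_cast Nat.choose_pos hkn
  unfold EE
  simp only [Nat.add_sub_cancel]
  by_cases hdm : d ≤ m
  · have e1 := H84.ttShift d j m s hd hdm
    have e2 := H84.ttShift d j m (s - d) hd hdm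
    have e3 : TT d j m (s - d) - TT d j m s = TT d j (m - d) (s - d) / 2 := by linarith
    have e4 : TT d j m (s - d - d) - TT d j m (s - d) = TT d j (m - d) (s - d - d) / 2 := by
      linarith
    rw [e3, e4]
    have c1 := cmp2_pos (k := j) hd (by omega) hn h0 h1 (m - d) (by omega)
    have c2 := cmp2_neg (k := j) (n := m + 1) hd (by omega) hn (s := s - d) (by linarith) (m - d)
      (by omega)
    have q : (0 : ℝ) ≤ TT d j (m - d) (-(d : ℝ)) := TT_nonneg' hd (by nlinarith)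
    have h5 : TT d j (m - d) (s - d - d) / 2 / TT d (j + 1) (m + 1) (s - d) ≤
        TT d j (m - d) (-(d : ℝ)) / 2 / ((m + 1).choose (j + 1) : ℝ) := by
      rw [div_le_div_iff₀ hpb hC]
      linarith
    have h6 : TT d j (m - d) (-(d : ℝ)) / 2 / ((m + 1).choose (j + 1) : ℝ) ≤
        TT d j (m - d) (s - d) / 2 / TT d (j + 1) (m + 1) s := by
      rw [div_le_div_iff₀ hC hpa]
      linarith
    exact h5.trans h6
  · rw [H84.ttSmall d j m _ hd (by omega) (by omega), H84.ttSmall d j m _ hd (by omega) (by omega),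
      H84.ttSmall d j m _ hd (by omega) (by omega)]
    simp

lemma EE_nonneg {d k n : ℕ} (hd : 1 ≤ d) (hk : 2 ≤ k) (hkn : k ≤ n) {s : ℝ}
    (h0 : 0 ≤ s) (h1 : s ≤ d) : 0 ≤ EE d k n s := by
  obtain ⟨j, rfl⟩ : ∃ j, k = j + 1 := ⟨k - 1, by omega⟩
  obtain ⟨m, rfl⟩ : ∃ m, n = m + 1 := ⟨n - 1, by omega⟩
  have hd' : (0 : ℝ) < d := by exact_mod_cast hd
  have hj : (1 : ℝ) ≤ j := by exact_mod_cast (by omega : 1 ≤ j)
  have hpa : 0 < TT d (j + 1) (m + 1) s := TT_pos' hd (by push_cast; nlinarith) hkn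
  unfold EE
  simp only [Nat.add_sub_cancel]
  apply div_nonneg _ hpa.le
  by_cases hdm : d ≤ m
  · have e1 := H84.ttShift d j m s hd hdm
    have : (0 : ℝ) ≤ TT d j (m - d) (s - d) := TT_nonneg' hd (by nlinarith)
    linarith
  · rw [H84.ttSmall d j m _ hd (by omega) (by omega), H84.ttSmall d j m _ hd (by omega) (by omega)]
    simp

lemma EE_le_GT {d k n : ℕ} (hd : 1 ≤ d) (hk : 2 ≤ k) (hkn : k ≤ n) {s : ℝ}
    (h0 : 0 ≤ s) (h1 : s ≤ d) : EE d k n s ≤ GT d k n s := by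
  obtain ⟨j, rfl⟩ : ∃ j, k = j + 2 := ⟨k - 2, by omega⟩
  obtain ⟨m, rfl⟩ : ∃ m, n = m + 1 := ⟨n - 1, by omega⟩
  have hd' : (0 : ℝ) < d := by exact_mod_cast hd
  have hj : (0 : ℝ) ≤ j := Nat.cast_nonneg j
  have hpa : 0 < TT d (j + 2) (m + 1) s := TT_pos' hd (by push_cast; nlinarith) hkn
  unfold EE Ratio.GT
  have e : j + 2 - 1 = j + 1 := by omega
  rw [e, Nat.add_sub_cancel]
  apply div_le_div_of_nonneg_right _ hpa.le
  have := TT_le_two hd (k := j) (m := m) (s := s) (by nlinarith)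
  linarith

theorem small : H59.Small := by
  intro d k n s δ hd hk hkn hs1 hsn hsd hδ1 hδd hkδ hn hconc
  have hd1 : 1 ≤ d := by omega
  have hd' : (0 : ℝ) < d := by exact_mod_cast hd1
  have hs0 : (0 : ℝ) < s := by exact_mod_cast hs1
  have hsd' : (s : ℝ) ≤ d := by exact_mod_cast hsd.le
  have hk' : (3 : ℝ) ≤ k := by exact_mod_cast hk
  have hn0 : (0 : ℝ) < n := by exact_mod_cast (by omega : 0 < n)
  have hδ0 : (0 : ℝ) < δ := by exact_mod_cast hδ1
  have g1 := GT_EE (d := d) (k := k) (n := n) (x := (s : ℝ)) hd1 (by omega) hkn (by nlinarith)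
  have g2 := GT_EE (d := d) (k := k) (n := n) (x := (s : ℝ) - d) hd1 (by omega) hkn
    (by nlinarith)
  have hm := EE_mono (d := d) (k := k) (n := n) (s := (s : ℝ)) hd1 (by omega) hkn hn hs0.le hsd'
  have he0 := EE_nonneg (d := d) (k := k) (n := n) (s := (s : ℝ)) hd1 (by omega) hkn hs0.le hsd'
  have he1 := EE_le_GT (d := d) (k := k) (n := n) (s := (s : ℝ)) hd1 (by omega) hkn hs0.le hsd'
  set E := EE d k n s
  set E' := EE d k n ((s : ℝ) - d)
  -- upper bound of the left side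
  have hL : (n : ℝ) * ((1 - (δ : ℝ) / d) * GT d k n s + (δ : ℝ) / d * GT d k n ((s : ℝ) - d)) ≤
      k - (s - δ) * E := by
    have e1 : (n : ℝ) * ((1 - (δ : ℝ) / d) * GT d k n s + (δ : ℝ) / d * GT d k n ((s : ℝ) - d)) =
        (1 - (δ : ℝ) / d) * (n * GT d k n s) + (δ : ℝ) / d * (n * GT d k n ((s : ℝ) - d)) := by ring
    rw [e1, g1, g2]
    have h1 : (δ : ℝ) / d * (d - s) * E' ≤ (δ : ℝ) / d * (d - s) * E :=
      mul_le_mul_of_nonneg_left hm (mul_nonneg (by positivity) (by linarith))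
    have e2 : (δ : ℝ) / d * (d - s) = δ - δ / d * s := by field_simp
    rw [e2] at h1
    have e3 : (1 - (δ : ℝ) / d) * (k - s * E) + (δ : ℝ) / d * (k - (s - d) * E') =
        k - (1 - (δ : ℝ) / d) * (s * E) + ((δ : ℝ) / d * (d - s)) * E' := by ring
    rw [e3, e2]
    linarith
  have hR : (k : ℝ) - (s - δ) * E ≤ n * GTp d k n ((s : ℝ) - δ) := by
    unfold Ratio.GTp
    by_cases hc : (s : ℝ) - δ ≤ 0
    · rw [if_pos hc]
      have hnE : (n : ℝ) * E ≤ k := by
        have h1 := mul_le_mul_of_nonneg_left he1 hn0.le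
        have h2 : 0 ≤ (s : ℝ) * E := mul_nonneg hs0.le he0
        linarith
      have hden : 0 < (n : ℝ) + (s - δ) := by
        have : ((k : ℝ) + δ) ≤ n + s := by exact_mod_cast hkδ
        linarith
      rw [← mul_div_assoc, le_div_iff₀ hden]
      have hu : 0 ≤ (δ : ℝ) - s := by linarith
      -- `(k + u E)(n - u) ≤ n k`
      have h3 : (k - (s - δ) * E) * (n + (s - δ)) =
          k * n - (δ - s) * (k - n * E) - (δ - s) ^ 2 * E := by ring
      rw [h3]
      have h4 : 0 ≤ ((δ : ℝ) - s) * (k - n * E) := mul_nonneg hu (by linarith)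
      have h5 : 0 ≤ ((δ : ℝ) - s) ^ 2 * E := mul_nonneg (sq_nonneg _) he0
      linarith
    · rw [if_neg hc]
      push Not at hc
      have h0 := GT_EE (d := d) (k := k) (n := n) (x := (0 : ℝ)) hd1 (by omega) hkn
        (by positivity)
      rw [zero_mul, sub_zero] at h0
      have hcc := hconc.2 (show (0 : ℝ) ∈ Set.Icc (0 : ℝ) s from ⟨le_rfl, hs0.le⟩)
        (show (s : ℝ) ∈ Set.Icc (0 : ℝ) s from ⟨hs0.le, le_rfl⟩)
        (show (0 : ℝ) ≤ (δ : ℝ) / s by positivity)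
        (show (0 : ℝ) ≤ 1 - (δ : ℝ) / s by rw [sub_nonneg, div_le_one hs0]; linarith) (by ring)
      simp only [smul_eq_mul] at hcc
      have e5 : (δ : ℝ) / s * 0 + (1 - (δ : ℝ) / s) * s = s - δ := by field_simp; ring
      rw [e5] at hcc
      have h6 := mul_le_mul_of_nonneg_left hcc hn0.le
      have e6 : (n : ℝ) * ((δ : ℝ) / s * GT d k n 0 + (1 - (δ : ℝ) / s) * GT d k n s) =
          (δ : ℝ) / s * (n * GT d k n 0) + (1 - (δ : ℝ) / s) * (n * GT d k n s) := by ring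
      rw [e6, h0, g1] at h6
      have e7 : (δ : ℝ) / s * k + (1 - (δ : ℝ) / s) * (k - s * E) = k - (s - δ) * E := by
        field_simp; ring
      rw [e7] at h6
      exact h6
  exact le_of_mul_le_mul_left (hL.trans hR) hn0

end Pool.Agent.MP_99e3ed_co.H64
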